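import Pool.Agent.CSMS.Main

set_option autoImplicit false

/-!
# Positivity of CSM classes times Schubert classes for products of disconnected blocks

Let `P` be any finite reduced crystallographic root system, `b` a base, `W` the Weyl group. The
functions `e u = (c_SM(Y(u)°)|_z)_z` and `y v = ([Y(v)]|_z)_z` on `W` with values in the polynomial
ring in the simple roots are the localisations of the equivariant classes (`IsCSM`, `IsSchubert`).
For all `u, v` the product `c_SM(Y(u)°) [Y(v)]` has a unique expansion in the `c_SM(Y(w)°)`, its
coefficients are polynomials in the simple roots with integral coefficients, and these integers are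
nonnegative if `v` is a product of pairwise totally disconnected blocks, each of them a simple
reflection or a product of two adjacent simple reflections.
-/

open RootPairing
open scoped Classical

namespace Pool.Agent.Results.MP_42a62f_ag.DisconnectedBlocks

open Pool.Agent.CSMS

theorem result {ι M N : Type*} [Fintype ι] [AddCommGroup M] [Module ℚ M] [AddCommGroup N]
    [Module ℚ N] (P : RootPairing ι ℚ M N) [P.IsRootSystem] [P.IsCrystallographic] [P.IsReduced]
    (b : P.Base) [Fintype P.weylGroup]
    (e y : P.weylGroup → P.weylGroup → MvPolynomial b.support ℚ)
    (he : IsCSM b e) (hy : IsSchubert b y) (u v : P.weylGroup) :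
    ∃ a : P.weylGroup → MvPolynomial b.support ℚ,
      (∀ z, e u z * y v z = ∑ w, a w * e w z) ∧
      (∀ a' : P.weylGroup → MvPolynomial b.support ℚ,
        (∀ z, e u z * y v z = ∑ w, a' w * e w z) → a' = a) ∧
      (∀ w m, ∃ n : ℤ, MvPolynomial.coeff m (a w) = n) ∧
      (∀ J, Blocks b v J → ∀ w m, ∃ n : ℕ, MvPolynomial.coeff m (a w) = n) :=
  main he hy u v

end Pool.Agent.Results.MP_42a62f_ag.DisconnectedBlocks
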